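import Pool.Agent.Work.MP_0c3a8f_co.Bd.B04

/-!
# MP_0c3a8f_co: the extremal graph for `F = K_{r+1}` and `m = e(T_r(n)) + r - 1`
-/

namespace Pool.Agent.Results.MP_0c3a8f_co.Clique

open MP0c3a8f

/-- For `r ≥ 3` and all large `n` the graph which arises from the Turán graph `T_r(n)` by deleting
an edge `v₀v₁` between two largest classes and adding a new vertex joined to one vertex
`v₀, v₁, ..., v_{r-1}` of each class is the unique graph of maximal spectral radius among the
`K_{r+1}`-free graphs with `e(T_r(n)) + r - 1` edges which are not `r`-partite. -/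
theorem result (r : ℕ) (hr : 3 ≤ r) : ∃ n₀ : ℕ, ∀ n ≥ n₀,
    Unique r ((SimpleGraph.turanGraph n r).edgeSet.ncard + r - 1)
      (⊤ : SimpleGraph (Fin (r + 1))) (TUMn r n 0 1) :=
  pCLI r hr

end Pool.Agent.Results.MP_0c3a8f_co.Clique
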