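import Pool.Agent.Work.MP_0c3a8f_co.Bd.B11

/-!
# MP_0c3a8f_co: the extremal graphs for `F = K_{r+1}` and a proportion `1 - 2/r` of all sizes
-/

namespace Pool.Agent.Results.MP_0c3a8f_co.CliqueRange

open MP0c3a8f

/-- Let `r ≥ 3`, `q = 1 - 1/r` and `F = K_{r+1}`.  For all large `n` and all `D` with
`ε q n ≤ D ≤ (1 - 2/r - ε) q n` the graphs of maximal spectral radius in `N_r(m, F)`,
`m = e(T_r(n)) + D`, are the graphs with the largest spectral radius in the two explicit families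
`IsG1 r n D`, `IsG2 r n D`.  The first family consists of one graph (up to isomorphism), the
graphs of the second family have the same spectral radius.  With `x = D/(qn)` and
`gap r n D = 2(r+1)x - 2 - c`, where `c = x⁴/(r(r-2))` if `n % r ≤ 1` and `c = 0` otherwise, the
maximisers are the graphs of the first family if `gap ≥ ε`, and the graphs of the second family
if `gap ≤ -ε`. -/
theorem result (r : ℕ) (hr : 3 ≤ r) (ε : ℝ) (hε : 0 < ε) :
    ∃ n₀ : ℕ, ∀ n ≥ n₀, ∀ D : ℕ, ε * ((1 - 1 / (r : ℝ)) * n) ≤ D →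
      (D : ℝ) ≤ (1 - 2 / (r : ℝ) - ε) * ((1 - 1 / (r : ℝ)) * n) →
      (∃ (k : ℕ) (G : SimpleGraph (Fin k)), Mx r n D G) ∧
      (∀ (V : Type) [Fintype V] (G : SimpleGraph V), Mx r n D G ↔
        (IsG1 r n D G ∨ IsG2 r n D G) ∧ ∀ (U : Type) [Fintype U] (H : SimpleGraph U),
          (IsG1 r n D H ∨ IsG2 r n D H) → lam H ≤ lam G) ∧
      (∀ (V U : Type) [Fintype V] [Fintype U] (G : SimpleGraph V) (H : SimpleGraph U),
        IsG1 r n D G → IsG1 r n D H → Nonempty (G ≃g H)) ∧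
      (∀ (V U : Type) [Fintype V] [Fintype U] (G : SimpleGraph V) (H : SimpleGraph U),
        IsG2 r n D G → IsG2 r n D H → lam G = lam H) ∧
      (ε ≤ gap r n D → ∀ (V : Type) [Fintype V] (G : SimpleGraph V),
        Mx r n D G ↔ IsG1 r n D G) ∧
      (gap r n D ≤ -ε → ∀ (V : Type) [Fintype V] (G : SimpleGraph V),
        Mx r n D G ↔ IsG2 r n D G) := by
  obtain ⟨n₀, h⟩ := bFIN3 r ε hr hε
  exact ⟨n₀, fun n hn D h1 h2 => h n hn D ⟨h1, h2⟩⟩

end Pool.Agent.Results.MP_0c3a8f_co.CliqueRange
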