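import Pool.Agent.Work.MP_0c3a8f_co.Bd.B04

/-!
# MP_0c3a8f_co: the extremal graph for all color-critical `F` which are not contained in the graphs
`TUn r n`
-/

namespace Pool.Agent.Results.MP_0c3a8f_co.Generic

open MP0c3a8f

/-- Let `F` be color-critical with `χ(F) = r + 1 ≥ 4`, and not contained in any of the graphs
`TUn r n` (the Turán graph `T_r(n)` and one new vertex joined to one vertex of each class).  Then
for all large `n` the graph `TUn r n` is the unique graph of maximal spectral radius in
`N_r(m, F)`, `m = e(T_r(n)) + r`. -/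
theorem result (W : Type) [Fintype W] (F : SimpleGraph W) (r : ℕ) (hr : 3 ≤ r)
    (hχ : F.chromaticNumber = r + 1) (hc : ColorCritical F) (hfree : ∀ n, F.Free (TUn r n)) :
    ∃ n₀ : ℕ, ∀ n ≥ n₀,
      Unique r ((SimpleGraph.turanGraph n r).edgeSet.ncard + r) F (TUn r n) :=
  pGEN W F r hr hχ hc hfree

end Pool.Agent.Results.MP_0c3a8f_co.Generic
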