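import Pool.Agent.Work.MP_0c3a8f_co.Bd.B11

/-!
# MP_0c3a8f_co: the extremal graphs for generic color-critical `F` and a proportion `1 - 2/r` of
all sizes
-/

namespace Pool.Agent.Results.MP_0c3a8f_co.GenericRange

open MP0c3a8f

/-- Let `F` be color-critical with `χ(F) = r + 1 ≥ 4`, `q = 1 - 1/r`, and suppose that `F` is not
contained in a graph which consists of a complete `r`-partite graph and one more vertex with
exactly one neighbour in each of two parts.  For all large `n` and all `D` with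
`ε q n ≤ D ≤ (1 - 2/r - ε) q n` the graphs of maximal spectral radius in `N_r(m, F)`,
`m = e(T_r(n)) + D`, are the graphs with the largest spectral radius among the `F`-free graphs
which consist of `T_r(n)` and one more vertex with `D` neighbours, at least one in each class. -/
theorem result (W : Type) [Fintype W] (F : SimpleGraph W) (r : ℕ) (hr : 3 ≤ r)
    (hχ : F.chromaticNumber = r + 1) (hc : ColorCritical F) (hF : Gen2 r F) (ε : ℝ)
    (hε : 0 < ε) :
    ∃ n₀ : ℕ, ∀ n ≥ n₀, ∀ D : ℕ, ε * ((1 - 1 / (r : ℝ)) * n) ≤ D →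
      (D : ℝ) ≤ (1 - 2 / (r : ℝ) - ε) * ((1 - 1 / (r : ℝ)) * n) →
      (∃ (k : ℕ) (G : SimpleGraph (Fin k)), MxF r n D F G) ∧
      ∀ (V : Type) [Fintype V] (G : SimpleGraph V), MxF r n D F G ↔
        (IsG0 r n D G ∧ F.Free G) ∧ ∀ (U : Type) [Fintype U] (H : SimpleGraph U),
          IsG0 r n D H → F.Free H → lam H ≤ lam G := by
  obtain ⟨hcrit, -, hcol⟩ := prfCRT W F r hχ hc
  obtain ⟨n₀, h⟩ := bGENX W F r ε hr hcrit hcol hF hε
  exact ⟨n₀, fun n hn D h1 h2 => h n hn D ⟨h1, h2⟩⟩

end Pool.Agent.Results.MP_0c3a8f_co.GenericRange
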