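import Pool.Agent.Work.MP_0c3a8f_co.Bd.B11

/-!
# MP_0c3a8f_co: the unique extremal graphs for a class of color-critical `F` which contains the
graphs `K_{1,1,s,...,s}`, and a proportion `1 - 2/r` of all sizes
-/

namespace Pool.Agent.Results.MP_0c3a8f_co.MultipartiteRange

open MP0c3a8f

/-- Let `F` be color-critical with `χ(F) = r + 1 ≥ 4`, `q = 1 - 1/r`, `s ≥ 2`, and suppose that
among the graphs which consist of a complete `r`-partite graph with large parts and one more
vertex with a neighbour in every part exactly those with less than `s` of these neighbours in two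
parts are `F`-free (`Fs`; for example `F = K_{1,1,s,...,s}`).  For all large `n` and all `D` with
`ε q n ≤ D ≤ (1 - 2/r - ε) q n` there is exactly one graph of maximal spectral radius in
`N_r(m, F)`, `m = e(T_r(n)) + D`: it is the graph described by `IsGs r n D s`. -/
theorem result (r s : ℕ) (hr : 3 ≤ r) (hs : 2 ≤ s) :
    ((Kms r s).chromaticNumber = r + 1 ∧ ColorCritical (Kms r s) ∧
      Fs r s (s + 1) (Kms r s)) ∧
    ∀ (W : Type) [Fintype W] (F : SimpleGraph W) (s₁ : ℕ), F.chromaticNumber = r + 1 →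
      ColorCritical F → Fs r s s₁ F → ∀ ε > (0 : ℝ),
      ∃ n₀ : ℕ, ∀ n ≥ n₀, ∀ D : ℕ, ε * ((1 - 1 / (r : ℝ)) * n) ≤ D →
        (D : ℝ) ≤ (1 - 2 / (r : ℝ) - ε) * ((1 - 1 / (r : ℝ)) * n) →
        (∃ (k : ℕ) (G : SimpleGraph (Fin k)), MxF r n D F G) ∧
        (∀ (V : Type) [Fintype V] (G : SimpleGraph V), MxF r n D F G ↔ IsGs r n D s G) ∧
        ∀ (V U : Type) [Fintype V] [Fintype U] (G : SimpleGraph V) (H : SimpleGraph U),
          IsGs r n D s G → IsGs r n D s H → Nonempty (G ≃g H) := by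
  refine ⟨prfMPF r s hr hs, ?_⟩
  intro W _ F s₁ hχ hc hF ε hε
  obtain ⟨hcrit, -, hcol⟩ := prfCRT W F r hχ hc
  obtain ⟨n₀, h⟩ := bFINS W F r s s₁ ε hr hs hcrit hcol hF hε
  exact ⟨n₀, fun n hn D h1 h2 => h n hn D ⟨h1, h2⟩⟩

end Pool.Agent.Results.MP_0c3a8f_co.MultipartiteRange
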