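import Pool.Agent.Work.MP_0c3a8f_co.Bd.B04

/-!
# MP_0c3a8f_co: the structure of all graphs in `N_r(m, F)` with spectral radius close to the bound
-/

namespace Pool.Agent.Results.MP_0c3a8f_co.Stability

open MP0c3a8f

/-- Let `F` be color-critical with `χ(F) = r + 1 ≥ 4`.  Every graph `G` in `N_r(m, F)`, `m` large,
with `λ(G)² ≥ 2 (1 - 1/r) m - C` is a modification of realisable type `(σ, a, b)` of a complete
`r`-partite graph, and `λ(G)² = 2 (1 - 1/r) m - (1 - 1/r) Phi σ a b + o(1)`. -/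
theorem result (W : Type) [Fintype W] (F : SimpleGraph W) (r : ℕ) (hr : 3 ≤ r)
    (hχ : F.chromaticNumber = r + 1) (hc : ColorCritical F) (C ε : ℝ) (s₁ : ℕ) (hε : 0 < ε) :
    ∃ m₀ : ℕ, ∀ m ≥ m₀, ∀ (V : Type) [Fintype V] (G : SimpleGraph V), InN r m F G →
      2 * (1 - 1 / (r : ℝ)) * m - C ≤ lam G ^ 2 →
      ∃ (σ : Fin r → ℕ) (a b : ℕ) (f : V → Option (Fin r)), IsModS σ a b G f ∧
        (∀ t, s₁ ≤ σ t) ∧ Real r F a b ∧
        |2 * (1 - 1 / (r : ℝ)) * m - lam G ^ 2 - (1 - 1 / (r : ℝ)) * Phi σ a b| ≤ ε := by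
  obtain ⟨hcrit, -, hcol⟩ := prfCRT W F r hχ hc
  exact pSTRF W F r hr hcrit hcol C ε s₁ hε

end Pool.Agent.Results.MP_0c3a8f_co.Stability
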