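import Pool.Agent.Work.MP_0c3a8f_co.Bd.B11

/-!
# MP_0c3a8f_co: the structure of the extremal graphs for all color-critical `F` and a proportion
`1 - 2/r` of all sizes
-/

namespace Pool.Agent.Results.MP_0c3a8f_co.StructureRange

open MP0c3a8f

/-- Let `F` be color-critical with `χ(F) = r + 1 ≥ 4`, `q = 1 - 1/r`, `ε > 0`.  There is `N` such
that for all `η > 0`, all `N'`, all large `n` and all `D` with
`ε q n ≤ D ≤ (1 - 2/r - ε) q n`, `m = e(T_r(n)) + D`: there are graphs of maximal spectral radius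
in `N_r(m, F)`, and each such graph `G` consists of a complete `r`-partite graph with `n` vertices
and one more vertex `w` up to `N` missing edges and `N` other edges (`Bd n N G g w`, which also
bounds the deviation of the sizes of the parts); `w` has `D + O(1)` neighbours in the parts;
`2qm - λ(G)²` is `2D(q - D/n) + O(1)`, it is `Cst G g w + o(1)` with the explicit function `Cst`,
and `G` minimises `Cst` up to `o(1)` among all graphs in `N_r(m, F)` of this shape. -/
theorem result (W : Type) [Fintype W] (F : SimpleGraph W) (r : ℕ) (hr : 3 ≤ r)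
    (hχ : F.chromaticNumber = r + 1) (hc : ColorCritical F) (ε : ℝ) (hε : 0 < ε) :
    ∃ N : ℕ, ∀ (η : ℝ) (N' : ℕ), 0 < η → ∃ n₀ : ℕ, ∀ n ≥ n₀, ∀ D : ℕ,
      ε * ((1 - 1 / (r : ℝ)) * n) ≤ D →
      (D : ℝ) ≤ (1 - 2 / (r : ℝ) - ε) * ((1 - 1 / (r : ℝ)) * n) →
      (∃ (k : ℕ) (G : SimpleGraph (Fin k)), MxF r n D F G) ∧
      ∀ (V : Type) [Fintype V] (G : SimpleGraph V), MxF r n D F G →
        |Def r G - 2 * D * (1 - 1 / (r : ℝ) - D / n)| ≤ N ∧
        ∃ (g : V → Option (Fin r)) (w : V), Bd n N G g w ∧ |Def r G - Cst G g w| ≤ η ∧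
          |((∑ t, nbn G g w t : ℕ) : ℝ) - D| ≤ N ∧
          ∀ (U : Type) [Fintype U] (H : SimpleGraph U) (h : U → Option (Fin r)) (u : U),
            InN r ((SimpleGraph.turanGraph n r).edgeSet.ncard + D) F H → Bd n N' H h u →
            Cst G g w ≤ Cst H h u + η := by
  obtain ⟨hcrit, hncol, hcol⟩ := prfCRT W F r hχ hc
  obtain ⟨N, hN⟩ := bMAXG W F r ε hr hcrit hcol hncol hε
  refine ⟨N, fun η N' hη => ?_⟩
  obtain ⟨n₀, h⟩ := hN η N' hη
  exact ⟨n₀, fun n hn D h1 h2 => h n hn D ⟨h1, h2⟩⟩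

end Pool.Agent.Results.MP_0c3a8f_co.StructureRange
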