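import Pool.Agent.Work.MP_0c3a8f_co.Bd.B04

/-!
# MP_0c3a8f_co: the extremal graphs for all color-critical `F` and `2m = (1 - 1/r) n² + O(1)`
-/

namespace Pool.Agent.Results.MP_0c3a8f_co.Window

open MP0c3a8f

/-- Let `F` be color-critical with `χ(F) = r + 1 ≥ 4`.  For all large `n` and all `m` with
`|2m - (1 - 1/r) n²| ≤ J` every graph `G` of maximal spectral radius in `N_r(m, F)` is a
modification of type `(σ, a, b)` of a complete `r`-partite graph with `n` vertices, where the type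
minimises `Phi σ a b = 2 (a + b) + (1 - 2/r) ∑ (σ t - n/r)²` among all realisable types, and
`λ(G)² = 2 (1 - 1/r) m - (1 - 1/r) Phi σ a b + o(1)`. -/
theorem result (W : Type) [Fintype W] (F : SimpleGraph W) (r : ℕ) (hr : 3 ≤ r)
    (hχ : F.chromaticNumber = r + 1) (hc : ColorCritical F) (J ε : ℝ) (hε : 0 < ε) :
    ∃ n₀ : ℕ, ∀ n ≥ n₀, ∀ m : ℕ, |2 * (m : ℝ) - (1 - 1 / (r : ℝ)) * (n : ℝ) ^ 2| ≤ J →
      (∃ (k : ℕ) (G : SimpleGraph (Fin k)), IsMaximiser r m F G) ∧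
      ∀ (V : Type) [Fintype V] (G : SimpleGraph V), IsMaximiser r m F G →
        ∃ (σ : Fin r → ℕ) (a b : ℕ) (f : V → Option (Fin r)), IsModS σ a b G f ∧
          ∑ t, σ t = n ∧ Real r F a b ∧
          (∀ (σ' : Fin r → ℕ) (a' b' : ℕ), ∑ t, σ' t = n → Real r F a' b' → Sz σ' a' b' m →
            Phi σ a b ≤ Phi σ' a' b') ∧
          |2 * (1 - 1 / (r : ℝ)) * m - lam G ^ 2 - (1 - 1 / (r : ℝ)) * Phi σ a b| ≤ ε := by
  obtain ⟨hcrit, hncol, hcol⟩ := prfCRT W F r hχ hc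
  exact pWIN W F r hr hcrit hcol hncol J ε hε

end Pool.Agent.Results.MP_0c3a8f_co.Window
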